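import Pool.Agent.Lib.RAB.B_PBX
import Pool.Agent.Lib.RA.T_IND
import Pool.Agent.Lib.RA.T_KPX

/-! Project ra1, step B: complex dependence gives real dependence. -/

open scoped Classical Topology ContDiff ComplexOrder Matrix
open Set MeasureTheory Complex Metric Filter

set_option linter.unusedVariables false

noncomputable section

namespace Pool.Agent.Lib.RA

open Pool.Agent.Lib.SV (E nsq)
open Pool.Agent.Lib.HS32 Pool.Agent.Lib.PN

theorem K10.rank_ev {n r : ℕ} {T : E n → Mat n} {z : E n} (c1 : ContinuousAt T z)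
    (h : r ≤ (T z).rank) : ∀ᶠ w in 𝓝 z, r ≤ (T w).rank := by
  obtain ⟨A, B, hAB⟩ := KPX.exists_AB h
  have c2 : ContinuousAt (fun w => (A * T w * B).det) z :=
    (Continuous.matrix_det ((continuous_const.matrix_mul continuous_id).matrix_mul
      continuous_const)).continuousAt.comp c1
  filter_upwards [c2.eventually_ne (y := 0) (by simp [hAB])] with w hw
  have c3 := Matrix.rank_of_isUnit _ ((Matrix.isUnit_iff_isUnit_det _).2 (Ne.isUnit hw))
  rw [Fintype.card_fin] at c3
  exact c3.ge.trans ((Matrix.rank_mul_le_left _ _).trans (Matrix.rank_mul_le_right _ _))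

open K10

theorem st_IND : St_IND := by
  intro n r k f Φ c R μ hb y hy h0 hg hn
  choose V hV hV' using hg.kp
  have h1 := K10.rank_ev (T := hr f) (smM_hess (cd_ofReal (by
    have := an_pt (plz_hn hb.plz hy)
    refine (this.congr ?_).contDiffAt
    filter_upwards [isOpen_ball.mem_nhds hy] with w hw
    rw [pt, hb.plz.eq w hw, ofReal_re]))).continuousAt h0.ge
  obtain ⟨ε, hε, h⟩ := Metric.eventually_nhds_iff_ball.1 ((eventually_all.2 hV).and
    ((eventually_all.2 hV').and (hg.com.and (hn.and (h1.and ((isOpen_ball.eventually_mem hy).and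
      (eventually_all.2 fun i => (hg.an i).eventually_analyticAt)))))))
  obtain ⟨a, ha, z, hz, b, hz'⟩ := st_IND22 n r (Fin k) Φ c R (ball y ε) μ V hb.hf.hol hb.hf.ck
    isOpen_ball ⟨y, mem_ball_self hε⟩ (fun z hz => (h z hz).2.2.2.2.2.1) fun z hz => by
      obtain ⟨a1, a2, a3, a4, a5, a6, a7⟩ := h z hz
      rw [← plz_hr hb.plz a6]
      refine ⟨hb.psd z a6, a5, fun i => ⟨a1 i, (a7 i).differentiableAt,
        fun l => (congrFun (a2 i) l).symm⟩, fun i j => a3 i j _ _ (a2 i) (a2 j), ?_⟩
      simpa only [a2] using a4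
  refine ⟨a, b, ha, mem_of_superset (ball_mem_nhds y hε)
    (AnalyticOnNhd.eqOn_of_preconnected_of_eventuallyEq (𝕜 := ℝ) (f := fun x => ∑ i, a i * μ i x)
      (g := fun _ => b) (fun w hw => ?_) (fun _ _ => analyticAt_const)
      (convex_ball y ε).isPreconnected hz hz')⟩
  exact Finset.analyticAt_fun_sum (f := fun i z => a i * μ i z) _ fun i _ =>
    analyticAt_const.mul ((h w hw).2.2.2.2.2.2 i)

end Pool.Agent.Lib.RA
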