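import Pool.Agent.Lib.RAB.Blue
import Pool.Agent.Lib.RA.T_FIB
import Pool.Agent.Lib.RA.T_AN

/-! Descent to the transversal. -/

open scoped Classical Topology ContDiff ComplexOrder Matrix
open Set MeasureTheory Complex Metric Filter

set_option linter.unusedVariables false

noncomputable section

namespace Pool.Agent.Lib.RA

open Pool.Agent.Lib.SV (E nsq)
open Pool.Agent.Lib.HS32 Pool.Agent.Lib.PN

namespace BX1

variable {n r : ℕ}

theorem ex_left (G : Mat n) (h : G.rank = r) :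
    ∃ A : Matrix (Fin r) (Fin n) ℂ, Function.Surjective fun v => A *ᵥ (G *ᵥ v) := by
  have e : LinearMap.range G.mulVecLin ≃ₗ[ℂ] E r := LinearEquiv.ofFinrankEq _ _ (by
    rw [Module.finrank_fin_fun]; exact h)
  obtain ⟨L, hL⟩ := LinearMap.exists_extend e.toLinearMap
  refine ⟨LinearMap.toMatrix' L, fun t => ?_⟩
  obtain ⟨⟨x, v, rfl⟩, hx⟩ := e.surjective t
  refine ⟨v, ?_⟩
  exact (LinearMap.toMatrix'_mulVec L _).trans ((DFunLike.congr_fun hL ⟨_, v, rfl⟩).trans hx)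

theorem cdr {g : E n → ℝ} {z : E n} (h : AnalyticAt ℝ g z) :
    ContDiffAt ℝ ∞ (fun w => (g w : ℂ)) z :=
  (ofRealCLM.analyticAt _ |>.comp h).contDiffAt

theorem fd_zero {g : E n → ℝ} {z v : E n} (h : DifferentiableAt ℝ g z)
    (h0 : star (dbv g z) ⬝ᵥ v = 0) : fderiv ℝ g z v = 0 := by
  have h1 := fderiv_eq_sum (fun w => (g w : ℂ)) z v
  have hd : DifferentiableAt ℝ (fun w => (g w : ℂ)) z := ofRealCLM.differentiableAt.comp z h
  have h2 : fderiv ℝ (fun w => (g w : ℂ)) z v = (fderiv ℝ g z v : ℝ) :=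
    DFunLike.congr_fun (ofRealCLM.hasFDerivAt.comp z h.hasFDerivAt).fderiv v
  have h3 : ∑ j, dz j (fun w => (g w : ℂ)) z * v j = 0 := by
    rw [← h0]
    exact Finset.sum_congr rfl fun j _ => by rw [← star_dzb_ofReal hd]; rfl
  have h4 : ∑ j, dzb j (fun w => (g w : ℂ)) z * star (v j) = 0 := by
    rw [← star_zero ℂ, ← h3, star_sum]
    exact Finset.sum_congr rfl fun j _ => by rw [star_mul', star_dz_ofReal hd]
  rw [h2, Finset.sum_add_distrib, h3, h4, add_zero] at h1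
  exact_mod_cast h1

theorem mat_ext {m : ℕ} {A B : Matrix (Fin m) (Fin n) ℂ} (h : ∀ v, A *ᵥ v = B *ᵥ v) : A = B :=
  Matrix.toLin'.injective (LinearMap.ext h)

end BX1

open PK BX1 in
theorem st_BX1 (hP : St_PZ) (hC : St_CH2) (hK : St_KPE) : St_BX1 := by
  intro n r k f Φ c R μ hb hr0 hg hi
  obtain ⟨⟨-, p2, -, p4, -⟩, p6, p7, -⟩ := hP n Φ c R hb.plz.hol
  have hc : c ∈ ball c R := mem_ball_self hb.r0
  have hc' : star c ∈ ball (star c) R := mem_ball_self hb.r0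
  have hB : ball c R ∈ 𝓝 c := ball_mem_nhds c hb.r0
  have eG : ∀ z ∈ ball c R, hr f z = Gm Φ (dg z) := fun z hz => (p6 f hb.plz z hz).2.1
  have hsw : ∀ z ∈ ball c R, ∀ y ∈ ball c R, Gm Φ (y, star z) = (Gm Φ (z, star y))ᴴ :=
    fun z hz y hy => by
      simpa using ((p7 hb.hf.real).2 (z, star y) (mk_mem_ball.2 ⟨hz, star_mem_ball.2 hy⟩)).2.2
  have dK : ∀ z ∈ ball c R, ∀ u ∈ ball (star c) R, DifferentiableAt ℂ (fun z => pu Φ (z, u)) z ∧
      ∀ v, fderiv ℂ (fun z => pu Φ (z, u)) z v = Gm Φ (z, u) *ᵥ v := fun z hz u hu => by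
    have hm := mk_mem_ball.2 ⟨hz, hu⟩
    have h1 := (p2.differentiableAt (isOpen_ball.mem_nhds hm)).hasFDerivAt.comp z
      (hasFDerivAt_prodMk_left (𝕜 := ℂ) z u)
    exact ⟨h1.differentiableAt, fun v =>
      (DFunLike.congr_fun h1.fderiv v).trans (p4 _ hm v 0).2.1⟩
  obtain ⟨A, hA⟩ := ex_left _ hr0
  let L : E n →L[ℂ] E r := LinearMap.toContinuousLinearMap A.mulVecLin
  let τ : E n → E r := fun z => L (pu Φ (z, star c)) - L (pu Φ (c, star c))
  have dτ : ∀ z ∈ ball c R, DifferentiableAt ℂ τ z ∧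
      ∀ v, fderiv ℂ τ z v = (A * Gm Φ (z, star c)) *ᵥ v := fun z hz => by
    have h1 := (L.hasFDerivAt.comp z (dK z hz _ hc').1.hasFDerivAt).sub_const
      (L (pu Φ (c, star c)))
    refine ⟨h1.differentiableAt, fun v => (DFunLike.congr_fun h1.fderiv v).trans ?_⟩
    rw [← Matrix.mulVec_mulVec, ← (dK z hz _ hc').2]
    rfl
  have hτ : ∀ z ∈ ball c R, HolN τ z := fun z hz =>
    mem_of_superset (isOpen_ball.mem_nhds hz) fun y hy => (dτ y hy).1
  have τ0 : τ c = 0 := sub_self _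
  have sj : Function.Surjective (fderiv ℂ τ c) := fun t => by
    obtain ⟨v, hv⟩ := hA t
    exact ⟨v, by rw [(dτ c hc).2, ← Matrix.mulVec_mulVec, ← hv, eG c hc]; rfl⟩
  obtain ⟨s, s1, s2, s3, s4, s5⟩ := st_FIB _ _ τ c (ANB.analyticAt (hτ c hc)) sj
  rw [τ0] at s1 s2 s3
  have hs : HolN s 0 := s1.eventually_analyticAt.mono fun _ h => h.differentiableAt
  have ts : Tendsto s (𝓝 0) (𝓝 c) := s2 ▸ s1.continuousAt.tendsto
  have tτ : Tendsto τ (𝓝 c) (𝓝 0) := τ0 ▸ (dτ c hc).1.continuousAt.tendsto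
  have jτ : ∀ z ∈ ball c R, jr τ z = A * Gm Φ (z, star c) := fun z hz =>
    mat_ext fun v => ((hC n r τ z (hτ z hz)).1 v).symm.trans ((dτ z hz).2 v)
  -- the section
  have TS : ∀ᶠ t in 𝓝 (0 : E r), jr τ (s t) * jr s t = 1 := by
    filter_upwards [hn_ev hs, s3.eventually_nhds, ts.eventually hB] with t h1 h2 h3
    rw [← (hC r n s t h1).2.2.2.2.1 r τ (hτ _ h3)]
    have e : τ ∘ s =ᶠ[𝓝 t] id := h2
    ext i l
    simp [jr, e.fderiv_eq, Matrix.one_apply, Pi.single_apply]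
  have T0 : jr τ c * jr s 0 = 1 := by simpa [s2] using TS.self_of_nhds
  have rk : ∀ᶠ z in 𝓝 c, (jr τ z).rank = r := by
    have h1 : ContinuousAt (jr τ) c := continuousAt_pi.2 fun i => continuousAt_pi.2 fun l =>
      (hn_at ((hC n r τ c (hτ c hc)).2.1 i l)).continuousAt
    have h2 : ContinuousAt (fun z => (jr τ z * jr s 0).det) c :=
      (Continuous.matrix_det (continuous_id.matrix_mul continuous_const)).continuousAt.comp h1
    filter_upwards [h2.eventually_ne (y := 0) (by rw [T0]; simp)] with z hz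
    refine le_antisymm (by simpa using Matrix.rank_le_card_height (jr τ z)) ?_
    have := Matrix.rank_of_isUnit _ ((Matrix.isUnit_iff_isUnit_det _).2 hz.isUnit)
    exact (by simpa using this.ge : r ≤ _).trans (Matrix.rank_mul_le_left _ _)
  have ker : ∀ᶠ z in 𝓝 c, ∀ v, fderiv ℂ τ z v = 0 → ∀ u ∈ ball (star c) R, Gm Φ (z, u) *ᵥ v = 0 := by
    filter_upwards [rk, hB] with z h1 h2 v hv
    exact (hK n r Φ c R hb.hf).2.1 r A (z, star c) (mk_mem_ball.2 ⟨h2, hc'⟩)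
      (by rw [← jτ z h2, h1]) v (((dτ z h2).2 v).symm.trans hv)
  -- the projection
  have hπ : HolN (s ∘ τ) c := hn_comp (f := s) (k := τ) (τ0.symm ▸ hs) (hτ c hc)
  obtain ⟨ε, hε, b0, b2⟩ := hn_ball hπ (inter_mem hB ((ts.comp tτ).eventually hB))
  have b1 : ∀ {z}, z ∈ ball c ε → z ∈ ball c R ∧ s (τ z) ∈ ball c R := fun hz => b0 hz
  have key : ∀ z ∈ ball c ε, ∀ u ∈ ball (star c) R,
      Gm Φ (s (τ z), u) * jr (s ∘ τ) z = Gm Φ (z, u) := fun z hz u hu => by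
    have h1 : EqOn (fun z => pu Φ (z, u)) (fun z => pu Φ (s (τ z), u)) (ball c ε) :=
      eqOn_convex isOpen_ball (convex_ball _ _)
        (fun y hy => (dK y (b1 hy).1 u hu).1.differentiableWithinAt)
        (fun y hy => DifferentiableAt.comp_differentiableWithinAt (g := fun z => pu Φ (z, u))
          (f := s ∘ τ) y (dK _ (b1 hy).2 u hu).1 (b2 y hy))
        (mem_ball_self hε) (s5 _ _ (by
          filter_upwards [ker, hB] with y h1 h2
          exact ⟨(dK y h2 u hu).1, fun v hv => ((dK y h2 u hu).2 v).trans (h1 v hv u hu)⟩))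
    have h2 := hn_of_on isOpen_ball b2 hz
    refine mat_ext fun v => ?_
    rw [← (dK z (b1 hz).1 u hu).2, (h1.eventuallyEq_of_mem (isOpen_ball.mem_nhds hz)).fderiv_eq,
      ← Matrix.mulVec_mulVec, ← (hC n n _ z h2).1, ← (dK _ (b1 hz).2 u hu).2]
    exact (DFunLike.congr_fun (fderiv_comp z (dK _ (b1 hz).2 u hu).1 (hn_at h2)) v).symm
  have hE : ball c ε ∈ 𝓝 c := ball_mem_nhds c hε
  have fa : ∀ z ∈ ball c R, AnalyticAt ℝ f z := fun z hz => (p6 f hb.plz z hz).1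
  have dm : ∀ i, ∀ᶠ z in 𝓝 c, AnalyticAt ℝ (μ i) z := fun i => (hg.an i).eventually_analyticAt
  choose V V1 V2 using hg.kp
  -- at the points of the section
  have sec : ∀ᶠ t in 𝓝 (0 : E r), hr (f ∘ s) t = (jr s t)ᴴ * hr f (s t) * jr s t ∧
      hr f (s t) * jr s t * jr τ (s t) = hr f (s t) ∧
      (jr τ (s t))ᴴ * ((jr s t)ᴴ * hr f (s t)) = hr f (s t) ∧
      ∀ i, dbv (μ i ∘ s) t = (jr s t)ᴴ *ᵥ dbv (μ i) (s t) ∧
        hr f (s t) *ᵥ V i (s t) = dbv (μ i) (s t) := by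
    filter_upwards [hn_ev hs, s3, ts.eventually hB, ts.eventually hE,
      ts.eventually (eventually_all.2 dm), ts.eventually (eventually_all.2 V2)]
      with t h1 h2 h3 h4 h5 h6
    have h7 : hr f (s t) * jr s t * jr τ (s t) = hr f (s t) := by
      have := key _ h4 _ (star_mem_ball.2 h3)
      rw [(hC n r τ _ (hτ _ h3)).2.2.2.2.1 n s (h2.symm ▸ h1), h2] at this
      rw [Matrix.mul_assoc, eG _ h3]
      exact this
    refine ⟨((hC r n s t h1).2.2.2.2.2.2 _ (cdr (fa _ h3))).2, h7, ?_, fun i => ⟨funext fun l =>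
      (((hC r n s t h1).2.2.2.2.2.1 _ ((cdr (h5 i)).differentiableAt (by simp)) l).2).trans
        (Finset.sum_congr rfl fun a _ => mul_comm _ _), h6 i⟩⟩
    have := congrArg Matrix.conjTranspose h7
    rwa [Matrix.conjTranspose_mul, Matrix.conjTranspose_mul, (hb.psd _ h3).1.eq] at this
  have sa : AnalyticAt ℝ s 0 := s1.restrictScalars
  obtain ⟨z1, z2, z3, z4⟩ := sec.self_of_nhds
  rw [s2] at z1 z2 z3 z4
  refine ⟨τ, s, hτ c hc, τ0, hs, s2, s3, ?_, (s2.symm ▸ fa c hc : AnalyticAt ℝ f (s 0)).comp sa, ?_,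
    ⟨fun i => (s2.symm ▸ hg.an i : AnalyticAt ℝ (μ i) (s 0)).comp sa, fun i =>
      ⟨fun t => jr τ (s t) *ᵥ V i (s t), ?_, ?_⟩, ?_⟩, ?_⟩
  · have h0 : ∀ i, ∀ᶠ z in 𝓝 c, μ i z = μ i (s (τ z)) := fun i => s4 _ _ (by
      filter_upwards [ker, hB, dm i, V2 i] with y h1 h2 h3 h4
      refine ⟨h3.differentiableAt, fun v hv => fd_zero h3.differentiableAt ?_⟩
      rw [← h4, Matrix.star_mulVec, ← Matrix.dotProduct_mulVec, (hb.psd y h2).1.eq, eG y h2, dg,
        h1 v hv _ (star_mem_ball.2 h2), dotProduct_zero])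
    filter_upwards [rk, hE, eventually_all.2 h0] with z h1 h2 h3
    have h4 := b1 h2
    refine ⟨(hC n r τ z (hτ z h4.1)).2.2.1.2 h1, ?_, fun i => (h3 i).symm⟩
    have h5 := ((hC n n _ z (hn_of_on isOpen_ball b2 h2)).2.2.2.2.2.2 _ (cdr (fa _ h4.2))).2
    have h6 := congrArg Matrix.conjTranspose (key z h2 _ (star_mem_ball.2 h4.2))
    rw [Matrix.conjTranspose_mul, ← hsw _ h4.2 _ h4.2, ← hsw _ h4.1 _ h4.2] at h6
    refine h5.trans ?_
    change _ * hr f (s (τ z)) * _ = _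
    rw [eG _ h4.2, eG _ h4.1, dg, h6]
    exact key z h2 _ (star_mem_ball.2 h4.1)
  · rw [z1]
    have hp := (hb.psd c hc).conjTranspose_mul_mul_same (jr s 0)
    refine Matrix.PosDef.of_dotProduct_mulVec_pos hp.1 fun x hx =>
      lt_of_le_of_ne (hp.dotProduct_mulVec_nonneg x) fun h0 => hx ?_
    have h1 := congrArg ((A * (jr τ c)ᴴ) *ᵥ ·) ((hp.dotProduct_mulVec_zero_iff x).1 h0.symm)
    simp only [Matrix.mulVec_mulVec, Matrix.mulVec_zero] at h1
    rwa [Matrix.mul_assoc A, ← Matrix.mul_assoc (jr τ c)ᴴ, z3, ← Matrix.mul_assoc, eG c hc, dg,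
      ← jτ c hc, T0, Matrix.one_mulVec] at h1
  · have h1 : ∀ a l, Hn (fun t => jr τ (s t) a l) 0 := fun a l =>
      hn_comp (f := fun z => jr τ z a l) (s2.symm ▸ (hC n r τ c (hτ c hc)).2.1 a l) hs
    have h2 : Hn (fun t => V i (s t)) 0 := hn_comp (s2.symm ▸ V1 i) hs
    refine hn_pi.2 fun a => ?_
    filter_upwards [eventually_all.2 (h1 a), eventually_all.2 (hn_pi.1 h2)] with t h3 h4
    exact DifferentiableAt.fun_sum (u := Finset.univ)
      (A := fun l t => jr τ (s t) a l * V i (s t) l) fun l _ => (h3 l).mul (h4 l)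
  · filter_upwards [sec] with t h
    rw [h.1, (h.2.2.2 i).1, ← (h.2.2.2 i).2, Matrix.mulVec_mulVec, Matrix.mulVec_mulVec,
      Matrix.mul_assoc _ _ (jr s t), Matrix.mul_assoc, h.2.1]
  · filter_upwards [sec, ts.eventually hg.com] with t h h' i i' v w hv hw
    have h1 : ∀ i v, hr (f ∘ s) t *ᵥ v = dbv (μ i ∘ s) t →
        hr f (s t) *ᵥ jr s t *ᵥ v = dbv (μ i) (s t) := fun i v hv => by
      have := congrArg ((jr τ (s t))ᴴ *ᵥ ·) hv
      simp only [h.1, (h.2.2.2 i).1, ← (h.2.2.2 i).2, Matrix.mulVec_mulVec] at this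
      rwa [← Matrix.mul_assoc, h.2.2.1, ← Matrix.mulVec_mulVec, (h.2.2.2 i).2] at this
    have := h' i i' _ _ (h1 i v hv) (h1 i' w hw)
    rwa [Matrix.star_mulVec, ← Matrix.dotProduct_mulVec, Matrix.mulVec_mulVec,
      Matrix.mulVec_mulVec, ← h.1] at this
  · refine LinearIndependent.of_comp ((jr τ c)ᴴ).mulVecLin ?_
    have e : ((jr τ c)ᴴ).mulVecLin ∘ (fun i => dbv (μ i ∘ s) 0) = fun i => dbv (μ i) c :=
      funext fun i => by
        change (jr τ c)ᴴ *ᵥ dbv (μ i ∘ s) 0 = _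
        rw [(z4 i).1, ← (z4 i).2, Matrix.mulVec_mulVec, Matrix.mulVec_mulVec, Matrix.mul_assoc, z3]
    rw [e]
    exact hi

end Pool.Agent.Lib.RA
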