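import Pool.Agent.Lib.RAB.Blue
import Pool.Agent.Lib.RA.T_STR
import Pool.Agent.Lib.RA.T_AN

/-! Project ra1, step B: the normal form on the transversal. -/

open scoped Classical Topology ContDiff ComplexOrder Matrix
open Set MeasureTheory Complex Metric Filter

set_option linter.unusedVariables false

noncomputable section

namespace Pool.Agent.Lib.RA

open Pool.Agent.Lib.SV (E nsq)
open Pool.Agent.Lib.HS32 Pool.Agent.Lib.PN

namespace BX2B

variable {n r : ℕ} {H : E n → E r} {z : E n} {g : E r → ℝ}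

theorem hr_ch (hC : St_CH2) (hH : HolN H z) (hg : AnalyticAt ℝ g (H z)) :
    hr (g ∘ H) z = (jr H z)ᴴ * hr g (H z) * jr H z :=
  ((hC n r H z hH).2.2.2.2.2.2 _ (cd_ofReal hg.contDiffAt)).2

theorem dbv_ch (hC : St_CH2) (hH : HolN H z) (hg : AnalyticAt ℝ g (H z)) :
    dbv (g ∘ H) z = (jr H z)ᴴ *ᵥ dbv g (H z) := funext fun l => by
  refine (((hC n r H z hH).2.2.2.2.2.1 _ (cd_diff (cd_ofReal hg.contDiffAt)) l).2).trans ?_
  simp only [Matrix.mulVec, dotProduct, Matrix.conjTranspose_apply, dbv, mul_comm]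

theorem inv_fd {K : E r → E n} (hH : DifferentiableAt ℂ H (K (H z)))
    (hK : DifferentiableAt ℂ K (H z)) (e : ∀ᶠ t in 𝓝 (H z), H (K t) = t) (v : E r) :
    fderiv ℂ H (K (H z)) (fderiv ℂ K (H z) v) = v := by
  have h := (fderiv_comp (H z) hH hK).symm.trans
    (EventuallyEq.fderiv_eq (f := id) e)
  rw [fderiv_id] at h
  exact congrArg (fun L => L v) h

end BX2B

open BX2B in
theorem st_BX2 (hC : St_CH2) (hT : St_TV) (hB : St_BXC) (hP : St_BXP) : St_BX2 := by
  intro k j f μ hf hpos hK hind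
  choose V hV eV using hK.kp
  have eV' := eventually_all.2 eV
  have h1 : LinearIndependent ℂ fun i => V i 0 := by
    refine LinearIndependent.of_comp (hr f 0).mulVecLin ?_
    convert hind using 1
    exact funext fun i => eV'.self_of_nhds i
  have h2 : LinearIndependent ℂ fun i : Fin k =>
      (Pi.single (Fin.castAdd j i) 1 : E (k + j)) := by
    convert (Pi.basisFun ℂ (Fin (k + j))).linearIndependent.comp _ (Fin.castAdd_injective k j)
      using 1
    exact funext fun i => by simp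
  obtain ⟨ψ, δ, hδ, s0, -, ψ0, ht, d1, d2, -, e2⟩ := st_STR _ _ _ V _ 0 univ univ_mem rfl h2 h1
    ((eventually_all.2 hV).and (eventually_all.2 fun i => eventually_all.2 fun l =>
      hB _ f (μ i) (μ l) (V i) (V l) 0 hf (hK.an i) (hK.an l) hpos.det_pos.ne' (hV i) (hV l)
        ((eV'.and hK.com).mono fun w a => ⟨a.1 i, a.1 l, a.2 i l⟩)))
  have t0 : (0 : E (k + j)) ∈ ψ.target := ψ0 ▸ ψ.map_source s0
  have χ0 : ψ.symm 0 = 0 := (congrArg ψ.symm ψ0.symm).trans (ψ.left_inv s0)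
  have Hψ : ∀ t ∈ ψ.source, HolN ψ t := fun t a => PK.hn_of_on ψ.open_source d1 a
  have Hχ : ∀ t ∈ ψ.target, HolN ψ.symm t := fun t a => PK.hn_of_on ψ.open_target d2 a
  have es := ψ.open_source.eventually_mem s0
  have et := ψ.open_target.eventually_mem t0
  have cψ : Tendsto ψ (𝓝 0) (𝓝 0) := by simpa only [ψ0] using (ψ.continuousAt s0).tendsto
  have cχ : Tendsto ψ.symm (𝓝 0) (𝓝 0) := by
    simpa only [χ0] using (ψ.continuousAt_symm t0).tendsto
  have an : ∀ g : E (k + j) → ℝ, AnalyticAt ℝ g 0 → AnalyticAt ℝ (g ∘ ψ.symm) 0 := fun g a =>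
    a.comp_of_eq ((ANB.analyticAt (Hχ 0 t0)).restrictScalars) χ0
  have inj : Function.Injective (jr ψ.symm 0).mulVec := by
    have h := fun v => inv_fd (H := ψ.symm) (K := ψ) (z := 0)
      (by rw [χ0, ψ0]; exact (Hχ 0 t0).self_of_nhds) (by rw [χ0]; exact (Hψ 0 s0).self_of_nhds)
      (by rw [χ0]; exact es.mono fun t a => ψ.left_inv a) v
    rw [χ0, ψ0] at h
    refine Matrix.mulVec_injective_iff_isUnit.2 (Matrix.mulVec_surjective_iff_isUnit.1 fun v => ?_)
    exact ⟨_, ((hC _ _ _ _ (Hχ 0 t0)).1 _).symm.trans (h v)⟩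
  obtain ⟨Ψ, c, hΨ, eΨ⟩ := hP k j (f ∘ ψ.symm) (fun i => μ i ∘ ψ.symm) (an f hf)
    (fun i => an _ (hK.an i)) (by
      rw [hr_ch hC (Hχ 0 t0) (χ0.symm ▸ hf), χ0]
      exact hpos.conjTranspose_mul_mul_same inj) (by
      filter_upwards [et, cχ.eventually eV', cχ.eventually hK.com,
        cχ.eventually hf.eventually_analyticAt,
        cχ.eventually (eventually_all.2 fun i => (hK.an i).eventually_analyticAt)]
        with t a1 a2 a3 a4 a5 i
      have b : ∀ i, jr ψ.symm t *ᵥ Pi.single (Fin.castAdd j i) 1 = V i (ψ.symm t) := fun i =>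
        ((hC _ _ _ _ (Hχ t a1)).1 _).symm.trans (e2 t a1 i)
      have b1 : hr (f ∘ ψ.symm) t *ᵥ Pi.single (Fin.castAdd j i) 1 =
          (jr ψ.symm t)ᴴ *ᵥ hr f (ψ.symm t) *ᵥ V i (ψ.symm t) := by
        rw [hr_ch hC (Hχ t a1) a4, ← b, Matrix.mulVec_mulVec, Matrix.mulVec_mulVec]
      refine ⟨by rw [b1, a2, dbv_ch hC (Hχ t a1) (a5 i)], fun i' => ?_⟩
      have b2 := congrFun b1 (Fin.castAdd j i')
      rw [Matrix.mulVec_single_one, Matrix.col_apply] at b2
      rw [b2, ← a3 i i' _ _ (a2 i) (a2 i'), ← b i', Matrix.mulVec_single_one]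
      rfl)
  obtain ⟨δ', hδ'⟩ := hΨ.exists
  have aΨ : AnalyticAt ℝ (ph0 Ψ) 0 := ((hT k j Ψ δ' c hδ').2.2.2.2.1 0
    (((hT k j Ψ δ' c hδ').2.1 0).trans_lt (by simpa using hδ'.d0))).1
  refine ⟨ψ, ψ.symm, Ψ, c, Hψ 0 s0, ψ0, Hχ 0 t0, χ0, et.mono fun t a => ψ.right_inv a, hΨ, ?_⟩
  filter_upwards [es, es.eventually_nhds, cψ.eventually eΨ, cψ.eventually et.eventually_nhds,
    cψ.eventually aΨ.eventually_analyticAt, cψ.eventually (an f hf).eventually_analyticAt]
    with t a1 a2 a3 a4 a5 a6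
  refine ⟨fun v => ?_, ?_, fun i => ?_⟩
  · have h := inv_fd (H := ψ) (K := ψ.symm) (z := t)
      (by rw [ψ.left_inv a1]; exact (Hψ t a1).self_of_nhds)
      (Hχ _ (ψ.map_source a1)).self_of_nhds (a4.mono fun t a => ψ.right_inv a) v
    rw [ψ.left_inv a1] at h
    exact ⟨_, h⟩
  · rw [hr_ch hC (Hψ t a1) a5, a3.1, ← hr_ch hC (Hψ t a1) a6]
    exact hess_congr (a2.mono fun w a => by simp only [Function.comp, ψ.left_inv a])
  · rw [← a3.2 i, Function.comp, ψ.left_inv a1]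

end Pool.Agent.Lib.RA
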