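import Pool.Agent.Lib.RAB.Blue
import Pool.Agent.Lib.RA.T_CONN

/-! Propagation of the bracket on a polar ball. -/

open scoped Classical Topology ContDiff ComplexOrder Matrix
open Set MeasureTheory Complex Metric Filter

set_option linter.unusedVariables false

noncomputable section

namespace Pool.Agent.Lib.RA

open Pool.Agent.Lib.SV (E nsq)
open Pool.Agent.Lib.HS32

namespace COM31

variable {n r : ℕ} {f : E n → ℝ} {Φ m m' : E n × E n → ℂ} {c z : E n} {R : ℝ}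

theorem herm_dot {G : Mat n} (h : G.IsHermitian) (W V : E n) :
    star (G *ᵥ W) ⬝ᵥ V = star W ⬝ᵥ G *ᵥ V := by
  rw [Matrix.star_mulVec, h.eq, Matrix.dotProduct_mulVec]

theorem key {G : Mat n} (h : G.IsHermitian) {V W Ξ Ξ' a a' : E n} {δ δ' : ℂ} (hV : G *ᵥ V = a)
    (hW : G *ᵥ W = a') (h1 : δ • a = G *ᵥ Ξ) (h2 : δ' • a' = G *ᵥ Ξ') :
    star a' ⬝ᵥ Ξ = δ * (star W ⬝ᵥ G *ᵥ V) ∧ star a ⬝ᵥ Ξ' = δ' * star (star W ⬝ᵥ G *ᵥ V) := by
  subst hV hW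
  constructor
  · rw [herm_dot h, ← h1, dotProduct_smul, smul_eq_mul]
  · rw [herm_dot h, ← h2, dotProduct_smul, smul_eq_mul, Matrix.star_dotProduct V (G *ᵥ W),
      herm_dot h]

theorem hr_eq (h : Plz f Φ c R) (hz : z ∈ ball c R) : hr f z = Gm Φ (dg z) := by
  rw [← PK.hess_dg (PK.hn_of_on isOpen_ball h.hol (PK.dg_mem_ball.2 hz))]
  refine hess_congr ?_
  filter_upwards [isOpen_ball.mem_nhds hz] with w hw using (h.eq w hw).symm

theorem dbv_eq (h : Kpe Φ m c R) (hz : z ∈ ball c R) : dbv (pt m) z = pu m (dg z) := by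
  funext i
  rw [← PK.dzb_dg (PK.hn_at (PK.hn_of_on isOpen_ball h.hol (PK.dg_mem_ball.2 hz)))]
  refine dzb_congr ?_
  filter_upwards [isOpen_ball.mem_nhds hz] with w hw
  exact Complex.ext rfl (by simpa using (h.real w hw).symm)

theorem pz_eq (h : Kpe Φ m c R) (hz : z ∈ ball c R) : pz m (dg z) = star (pu m (dg z)) := by
  have hn := PK.hn_of_on isOpen_ball h.hol (PK.dg_mem_ball.2 hz)
  have e := PK.cj_eq_loc hn ((isOpen_ball.eventually_mem hz).mono h.real)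
  rw [← PK.pz_congr e, PK.pz_cj (by simpa using PK.hn_at hn)]
  simp

theorem hn_dot {a : E n × E n → E n} {b : E n → E n} {d : E n → ℂ} {w : E n × E n} (ha : Hn a w)
    (hb : Hn b w.1) (hd : Hn d w.1) : Hn (fun w => d w.1 * (a w ⬝ᵥ b w.1)) w := by
  have f1 : Hn (Prod.fst : E n × E n → E n) w := Eventually.of_forall fun _ => differentiableAt_fst
  filter_upwards [ha, PK.hn_comp hb f1, PK.hn_comp hd f1] with y h1 h2 h3
  refine h3.mul ?_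
  simp only [dotProduct]
  exact DifferentiableAt.fun_sum fun i _ =>
    (differentiableAt_pi.1 h1 i).mul (differentiableAt_pi.1 h2 i)

end COM31

open COM31 in
theorem st_COM (hK : St_KPE) : St_COM := by
  intro n r f Φ m m' c R hP hm hm' y hy h0
  have ex : ∀ {m}, Kpe Φ m c R → ∀ z ∈ ball c R, (hr f z).rank = r → ∃ V : E n → E n, HolN V z ∧
      ∀ᶠ w in 𝓝 z, hr f w *ᵥ V w = pu m (dg w) := fun {m} hm z hz hk => by
    obtain ⟨V, h1, h2⟩ := (hK n r Φ c R hP.hf).2.2 m hm (dg z) (PK.dg_mem_ball.2 hz)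
      (by rw [← hr_eq hP.plz hz, hk])
    refine ⟨V, h1, ?_⟩
    filter_upwards [h2, isOpen_ball.mem_nhds hz] with w h3 hw
    rw [hr_eq hP.plz hw]
    exact h3 _ (PK.star_mem_ball.2 hw)
  have ky : ∀ {δ Ξ δ' Ξ'}, Fld Φ m c R δ Ξ → Fld Φ m' c R δ' Ξ' → ∀ z ∈ ball c R, ∀ V W : E n,
      hr f z *ᵥ V = pu m (dg z) → hr f z *ᵥ W = pu m' (dg z) →
      pz m' (dg z) ⬝ᵥ Ξ z = δ z * (star W ⬝ᵥ hr f z *ᵥ V) ∧
      pz m (dg z) ⬝ᵥ Ξ' z = δ' z * star (star W ⬝ᵥ hr f z *ᵥ V) :=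
    fun {δ Ξ δ' Ξ'} h1 h2 z hz V W hV hW => by
    rw [pz_eq hm hz, pz_eq hm' hz]
    refine key (hP.psd z hz).1 hV hW ?_ ?_
    · rw [hr_eq hP.plz hz]; exact h1.eq _ (PK.dg_mem_ball.2 hz)
    · rw [hr_eq hP.plz hz]; exact h2.eq _ (PK.dg_mem_ball.2 hz)
  have p1 : ∀ δ Ξ δ' Ξ', Fld Φ m c R δ Ξ → Fld Φ m' c R δ' Ξ' → ∀ w ∈ ball (dg c) R,
      δ' w.1 * (pz m' w ⬝ᵥ Ξ w.1) = δ w.1 * (pz m w ⬝ᵥ Ξ' w.1) := by
    intro δ Ξ δ' Ξ' h1 h2
    have a1 : ∀ w ∈ ball (dg c) R, Hn (fun w => δ' w.1 * (pz m' w ⬝ᵥ Ξ w.1)) w := fun w hw =>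
      hn_dot (PK.hn_pzv (PK.hn_of_on isOpen_ball hm'.hol hw))
        (PK.hn_of_on isOpen_ball h1.hx (PK.mem_ball_dg.1 hw).1)
        (PK.hn_of_on isOpen_ball h2.hd (PK.mem_ball_dg.1 hw).1)
    have a2 : ∀ w ∈ ball (dg c) R, Hn (fun w => δ w.1 * (pz m w ⬝ᵥ Ξ' w.1)) w := fun w hw =>
      hn_dot (PK.hn_pzv (PK.hn_of_on isOpen_ball hm.hol hw))
        (PK.hn_of_on isOpen_ball h2.hx (PK.mem_ball_dg.1 hw).1)
        (PK.hn_of_on isOpen_ball h1.hd (PK.mem_ball_dg.1 hw).1)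
    refine PK.id2_ball (PK.on_of_hn a1) (PK.on_of_hn a2) hy ?_
    filter_upwards [h0.eventually_nhds, isOpen_ball.mem_nhds hy] with z hz0 hz
    have c1 := (PK.hn_at (a1 _ (PK.dg_mem_ball.2 hz))).continuousAt.comp PK.cont_dg.continuousAt
    have c2 := (PK.hn_at (a2 _ (PK.dg_mem_ball.2 hz))).continuousAt.comp PK.cont_dg.continuousAt
    refine tendsto_nhds_unique_of_frequently_eq c1 c2 ?_
    refine ((hP.den z hz).and_eventually (hz0.and (isOpen_ball.mem_nhds hz))).mono ?_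
    rintro w ⟨hk, h3, hw⟩
    obtain ⟨V, -, hV⟩ := ex hm w hw hk
    obtain ⟨W, -, hW⟩ := ex hm' w hw hk
    obtain ⟨e1, e2⟩ := ky h1 h2 w hw _ _ hV.self_of_nhds hW.self_of_nhds
    have e3 := h3 hk (V w) (W w) (by rw [dbv_eq hm hw]; exact hV.self_of_nhds)
      (by rw [dbv_eq hm' hw]; exact hW.self_of_nhds)
    have e4 : star (star (W w) ⬝ᵥ hr f w *ᵥ V w) = star (W w) ⬝ᵥ hr f w *ᵥ V w :=
      conj_eq_iff_im.2 e3
    change δ' w * (pz m' (dg w) ⬝ᵥ Ξ w) = δ w * (pz m (dg w) ⬝ᵥ Ξ' w)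
    rw [e1, e2, e4]; ring
  refine ⟨p1, fun z hz hk V W hV hW => ?_⟩
  obtain ⟨δ, Ξ, h1, z1, hz1, d1⟩ := hm.ex
  obtain ⟨δ', Ξ', h2, z2, hz2, d2⟩ := hm'.ex
  have cn := (convex_ball c R).isPreconnected
  have fr : ∃ᶠ w in 𝓝 z, δ w * δ' w ≠ 0 := by
    refine (st_CONN _ _ (fun w => δ w * δ' w) isOpen_ball cn (h1.hd.mul h2.hd) ?_).2.2 z hz
    obtain ⟨w, h3, h4, h5⟩ := (((st_CONN _ _ δ isOpen_ball cn h1.hd ⟨z1, hz1, d1⟩).2.2 z2
      hz2).and_eventually (((h2.hd.differentiableAt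
        (isOpen_ball.mem_nhds hz2)).continuousAt.eventually_ne d2).and
        (isOpen_ball.mem_nhds hz2))).exists
    exact ⟨w, h5, mul_ne_zero h3 h4⟩
  obtain ⟨V1, -, hV1⟩ := ex hm z hz hk
  obtain ⟨W1, cW, hW1⟩ := ex hm' z hz hk
  rw [dbv_eq hm hz] at hV
  rw [dbv_eq hm' hz] at hW
  have c1 : ContinuousAt (fun w => (star (W1 w) ⬝ᵥ pu m (dg w)).im) z := by
    have c2 := (PK.hn_at (PK.hn_puv (PK.hn_of_on isOpen_ball hm.hol
      (PK.dg_mem_ball.2 hz)))).continuousAt.comp PK.cont_dg.continuousAt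
    have c3 := cW.self_of_nhds.continuousAt
    refine continuous_im.continuousAt.comp ?_
    simp only [dotProduct]
    exact tendsto_finsetSum _ fun i _ =>
      (continuousAt_pi.1 c3.star i).mul (continuousAt_pi.1 c2 i)
  have e0 : (star (W1 z) ⬝ᵥ pu m (dg z)).im = 0 := by
    refine tendsto_nhds_unique_of_frequently_eq c1 tendsto_const_nhds ?_
    refine (fr.and_eventually (hV1.and (hW1.and (isOpen_ball.mem_nhds hz)))).mono ?_
    rintro w ⟨h3, h4, h5, hw⟩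
    obtain ⟨e1, e2⟩ := ky h1 h2 w hw _ _ h4 h5
    have e3 : δ' w * (pz m' (dg w) ⬝ᵥ Ξ w) = δ w * (pz m (dg w) ⬝ᵥ Ξ' w) :=
      p1 δ Ξ δ' Ξ' h1 h2 (dg w) (PK.dg_mem_ball.2 hw)
    rw [e1, e2, h4] at e3
    exact conj_eq_iff_im.1 (mul_left_cancel₀ h3 (by
      change _ * star _ = _
      linear_combination -e3))
  rw [← herm_dot (hP.psd z hz).1, hW, ← hW1.self_of_nhds, herm_dot (hP.psd z hz).1, hV]
  exact e0

end Pool.Agent.Lib.RA
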