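import Pool.Agent.Lib.RAB.Blue
import Pool.Agent.Lib.RA.B_KPX
import Pool.Agent.Lib.RA.K_At

/-! Project ra1, step B: extension of a Killing potential to a polar ball. -/

open scoped Classical Topology ContDiff ComplexOrder Matrix
open Set Complex Metric Filter

set_option linter.unusedVariables false

noncomputable section

namespace Pool.Agent.Lib.RA

open Pool.Agent.Lib.SV (E)
open Pool.Agent.Lib.HS32 PK

theorem st_KPX : St_KPX := by
  intro n r f Φ c R μ hP y hy hμ hK
  obtain ⟨ε, hε, hb⟩ := Metric.eventually_nhds_iff_ball.1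
    (hK.and (hμ.eventually_analyticAt.and (isOpen_ball.eventually_mem hy)))
  obtain ⟨z, h1, hz⟩ := ((hP.den y hy).and_eventually (ball_mem_nhds y hε)).exists
  obtain ⟨a1, a2, a3⟩ := hb z hz
  obtain ⟨V, hV, e⟩ := a1 h1
  obtain ⟨m, hm, e'⟩ := K93.kpx hP.hf a3 (by rw [← K93.plz_hr hP.plz a3, h1]) a2 hV (by
    filter_upwards [e, isOpen_ball.eventually_mem a3] with w b1 b2
    rw [← K93.plz_hr hP.plz b2, b1])
  refine ⟨m, hm, ?_⟩
  filter_upwards [ball_mem_nhds y hε] with w hw
  refine KA.eq_ball (g := fun w => m (dg w)) (g' := fun w => (μ w : ℂ)) (fun x hx => ?_)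
    (fun x hx => KA.an_ofReal (hb x hx).2.1) hz e' hw
  exact ((ANB.analyticAt (K93.plz_hn (K93.plz_pt hm) (hb x hx).2.2)).restrictScalars
    (𝕜 := ℝ)).comp ((dgL n).analyticAt x)

end Pool.Agent.Lib.RA
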