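import Pool.Agent.Lib.RAB.B_BOX
import Pool.Agent.Lib.RAB.B_BX1
import Pool.Agent.Lib.RAB.B_BX2
import Pool.Agent.Lib.RAB.B_BXC
import Pool.Agent.Lib.RAB.B_BXE
import Pool.Agent.Lib.RAB.B_BXP
import Pool.Agent.Lib.RAB.B_COM
import Pool.Agent.Lib.RAB.B_FAM
import Pool.Agent.Lib.RAB.B_KPE
import Pool.Agent.Lib.RAB.B_KPX
import Pool.Agent.Lib.RAB.B_ONE
import Pool.Agent.Lib.RA.B_X0
import Pool.Agent.Lib.RA.B_TV
import Pool.Agent.Lib.RA.B_CH2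
import Pool.Agent.Lib.RA.B_PZ

/-! Project ra1, step B: assembly. -/

namespace Pool.Agent.Lib.RA

theorem bPBX : St_PBX := st_PBX st_KPX st_ONE

theorem bCOM : St_COM := st_COM st_KPE

theorem bGLB : St_GLB := st_GLB st_KPX st_KPE bCOM st_ONE

theorem bBOX : St_BOX :=
  st_BOX (st_BXE (st_BX1 st_PZ st_CH2 st_KPE) (st_BX2 st_CH2 st_TV st_BXC st_BXP) st_TV) st_ONE
    bPBX st_X0

end Pool.Agent.Lib.RA
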