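import Pool.Agent.Lib.RAB.Blue
import Pool.Agent.Lib.RA.B_PAIR
import Pool.Agent.Lib.RA.B_TV

/-! Project ra1, step B: boxes on the manifold. -/

open scoped Classical Topology ContDiff ComplexOrder Matrix
open Set Complex Metric Filter

set_option linter.unusedVariables false

noncomputable section

namespace Pool.Agent.Lib.RA

open Pool.Agent.Lib.SV (E)
open Pool.Agent.Lib.HS32

theorem st_BOX (hB : St_BXE) (h1 : St_ONE) (hP : St_PBX) (hX : St_X0) : St_BOX := by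
  intro n k j M G φ μ hS hH hK x₀ hx₀
  obtain ⟨e, he, hx⟩ := M.cov x₀
  obtain ⟨R, Φ, hRt, hPb⟩ := (hP n (k + j) M G φ hS hH e he).1 (e x₀) (e.map_source hx)
  have hrk : (hr (φ e) (e x₀)).rank = k + j :=
    ((h1 n M e he x₀ hx).2.2.2.2.2 φ hS.wt).1.symm.trans hx₀.1
  have hXo := (hX n M φ (k + j) hS.wt hS.an hS.le).1
  have hst : Tendsto e.symm (𝓝 (e x₀)) (𝓝 x₀) := by
    have := e.continuousAt_symm (e.map_source hx)
    rwa [ContinuousAt, e.left_inv hx] at this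
  have hKg : Kg (φ e) (fun i => μ i ∘ e.symm) (e x₀) := by
    refine ⟨fun i => (hK.kp i x₀).1 e he hx,
      fun i => (kpAt_iff.1 (hK.kp i x₀)).2.self_of_nhds hx₀.1 e he hx, ?_⟩
    filter_upwards [hst.eventually (hXo.mem_nhds hx₀.1),
      e.open_target.mem_nhds (e.map_source hx)] with w hw hw' i i'
    have := comAt_iff.1 (hK.com i i' _ hw) e he (e.map_target hw')
    rwa [e.right_inv hw'] at this
  obtain ⟨Ψ, δ, c₀, U, H, s, hT, hU, hcU, hUb, hH0, hs0, hz, hs⟩ :=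
    hB n k j (φ e) Φ (e x₀) R _ hPb hrk hKg (hx₀.2 e he hx)
  have hO : IsOpen (e.source ∩ e ⁻¹' U) := e.isOpen_inter_preimage hU
  have hev : ∀ {F : Type} (g : E n → F), ∀ x ∈ e.source, (g ∘ e) ∘ e.symm =ᶠ[𝓝 (e x)] g := by
    intro F g x hx
    filter_upwards [e.open_target.mem_nhds (e.map_source hx)] with w hw
    simp [e.right_inv hw]
  have hhol : ∀ x ∈ e.source ∩ e ⁻¹' U, HolN ((H ∘ e) ∘ e.symm) (e x) := fun x hx => by
    filter_upwards [(hz _ hx.2).1, (hev H x hx.1).eventuallyEq_nhds] with w h2 h3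
    exact h2.congr_of_eventuallyEq h3
  refine ⟨Ψ, δ, c₀, e.source ∩ e ⁻¹' U, H ∘ e, e.symm ∘ s, hT, hO, ⟨hx, hcU⟩, hH0,
    fun x hx => ⟨⟨(h1 n M e he x hx.1).2.1 _ _ (hhol x hx), ?_⟩,
      (TVB.pj_norm _).trans_lt (hz _ hx.2).2.1, ?_⟩, fun x hx => (hz _ hx.2).2.1,
    fun x hx => (h1 n M e he x hx.1).2.2.1 _ _ (hhol x hx) ?_, fun t ht => ?_, ?_⟩
  · filter_upwards [hO.mem_nhds hx] with y hy
    obtain ⟨-, -, -, a4, a5, -⟩ := hz _ hy.2
    have hc := hev (ph0 Ψ ∘ H) y hy.1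
    exact ((h1 n M e he y hy.1).2.2.2.2.2 φ hS.wt).2.1 (ph0 Ψ ∘ (H ∘ e))
      (((h1 n M e he y hy.1).1 ℝ _).2 (a4.congr_of_eventuallyEq hc))
      ((PAIRB.hr_congr hc).trans a5)
  · filter_upwards [hO.mem_nhds hx] with y hy i
    have := (hz _ hy.2).2.2.2.2.2 i
    simpa [e.left_inv hy.1] using this
  · rw [(hev H x hx.1).fderiv_eq]
    exact (hz _ hx.2).2.2.1
  · obtain ⟨a1, a2, a3⟩ := hs t ht
    have ht1 : s t ∈ e.target := hRt (hUb a1)
    have hc : ContinuousAt s t := a3.self_of_nhds.continuousAt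
    refine ⟨⟨e.map_target ht1, by simpa [e.right_inv ht1] using a1⟩,
      by simp [e.right_inv ht1, a2], (h1 n M e he _ (e.map_target ht1)).2.2.2.1 _ _ t rfl
        ((e.continuousAt_symm ht1).comp hc) ?_⟩
    have h4 : e ∘ (e.symm ∘ s) =ᶠ[𝓝 t] s := by
      filter_upwards [hc.eventually (e.open_target.mem_nhds ht1)] with w hw
      simp [e.right_inv hw]
    filter_upwards [a3, h4.eventuallyEq_nhds] with w h2 h3
    exact h2.congr_of_eventuallyEq h3
  · simp [hs0, e.left_inv hx]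

end Pool.Agent.Lib.RA
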