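import Pool.Agent.Lib.RAB.B_PBX
import Pool.Agent.Lib.RA.B_R0

/-! Project ra1, step B: global extension of Killing potentials. -/

open scoped Classical Topology ContDiff ComplexOrder Matrix
open Set MeasureTheory Complex Metric Filter

set_option linter.unusedVariables false

noncomputable section

namespace Pool.Agent.Lib.RA

open Pool.Agent.Lib.SV (E nsq)
open Pool.Agent.Lib.HS32 Pool.Agent.Lib.PN

namespace K10

variable {n r : ℕ} {M : Mf n} {e : M.Ch} {x : M.X}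

/-- Propagation on a connected space. -/
theorem prop_conn {X : Type} [TopologicalSpace X] [PreconnectedSpace X] {P : X → Prop}
    (h : ∀ x, ∃ O ∈ 𝓝 x, ∀ y ∈ O, (∀ᶠ w in 𝓝 y, P w) → ∀ w ∈ O, P w) {x₀ : X}
    (h0 : ∀ᶠ w in 𝓝 x₀, P w) (x : X) : P x := by
  have hc : IsClopen {x | ∀ᶠ w in 𝓝 x, P w} := by
    refine ⟨isClosed_of_closure_subset fun x hx => ?_, isOpen_setOfPred_eventually_nhds⟩
    obtain ⟨O, h1, h2⟩ := h x
    obtain ⟨y, h3, h4⟩ := mem_closure_iff_nhds.1 hx O h1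
    exact mem_of_superset h1 (h2 y h3 h4)
  have : x ∈ {x | ∀ᶠ w in 𝓝 x, P w} := hc.eq_univ ⟨x₀, h0⟩ ▸ mem_univ x
  exact this.self_of_nhds

theorem comp_ev {F : Type} {f g : M.X → F} (hx : x ∈ e.source) (h : f =ᶠ[𝓝 x] g) :
    f ∘ e.symm =ᶠ[𝓝 (e x)] g ∘ e.symm := (ev_chart hx).1 h

theorem anAt_congr {F : Type} [NormedAddCommGroup F] [NormedSpace ℝ F] {f g : M.X → F}
    (h : AnAt M f x) (q : f =ᶠ[𝓝 x] g) : AnAt M g x :=
  fun e he hx => (h e he hx).congr (comp_ev hx q)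

theorem kpAt_congr {φ : M.Fam ℝ} {f g : M.X → ℝ} (h : KPAt M φ r f x) (q : f =ᶠ[𝓝 x] g) :
    KPAt M φ r g x := by
  refine ⟨anAt_congr h.1 q, ?_⟩
  filter_upwards [h.2, q.eventuallyEq_nhds] with y a b c e he hy
  exact kpe_congr (a c e he hy) (comp_ev hy b)

theorem lift_ev {F : Type} (g : E n → F) {z : E n} (hz : z ∈ e.target) :
    g =ᶠ[𝓝 z] (fun x => g (e x)) ∘ e.symm := by
  filter_upwards [e.open_target.mem_nhds hz] with w hw
  simp only [Function.comp, e.right_inv hw]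

theorem ball_nhds {c : E n} {R : ℝ} (hx : x ∈ e.source) (h : e x ∈ ball c R) :
    e.source ∩ e ⁻¹' ball c R ∈ 𝓝 x := (e.isOpen_inter_preimage isOpen_ball).mem_nhds ⟨hx, h⟩

/-- The identity theorem on a chart ball. -/
theorem an_ball {F : Type} [NormedAddCommGroup F] [NormedSpace ℝ F] [CompleteSpace F]
    {f g : M.X → F} {c : E n} {R : ℝ} (he : e ∈ M.C) (hs : ball c R ⊆ e.target)
    (hf : ∀ y ∈ e.source ∩ e ⁻¹' ball c R, AnAt M f y)
    (hg : ∀ y ∈ e.source ∩ e ⁻¹' ball c R, AnAt M g y) (hx : x ∈ e.source ∩ e ⁻¹' ball c R)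
    (q : f =ᶠ[𝓝 x] g) : EqOn f g (e.source ∩ e ⁻¹' ball c R) := by
  have a : ∀ {f : M.X → F}, (∀ y ∈ e.source ∩ e ⁻¹' ball c R, AnAt M f y) →
      AnalyticOnNhd ℝ (f ∘ e.symm) (ball c R) := fun h z hz =>
    at_tgt he (hs hz) (h _ ⟨e.map_target (hs hz), by rwa [mem_preimage, e.right_inv (hs hz)]⟩)
  intro y hy
  have := (a hf).eqOn_of_preconnected_of_eventuallyEq (a hg) (convex_ball c R).isPreconnected
    hx.2 (comp_ev hx.1 q) hy.2
  simpa only [Function.comp, e.left_inv hy.1] using this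

/-- The identity theorem on a connected manifold. -/
theorem an_eq [M.Cpt] {F : Type} [NormedAddCommGroup F] [NormedSpace ℝ F] [CompleteSpace F]
    {f g : M.X → F} (hf : ∀ y, AnAt M f y) (hg : ∀ y, AnAt M g y) (q : f =ᶠ[𝓝 x] g) (y : M.X) :
    f y = g y := by
  refine prop_conn (P := fun y => f y = g y) (fun x => ?_) q y
  obtain ⟨R, h0, hs⟩ := Metric.mem_nhds_iff.1 ((M.ch x).open_target.mem_nhds (Mf.ch_tgt x))
  exact ⟨_, ball_nhds (Mf.mem_ch x) (mem_ball_self h0), fun y hy h =>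
    an_ball (Mf.ch_mem x) hs (fun y _ => hf y) (fun y _ => hg y) hy h⟩

theorem kpe_of (hE : St_KPE) {f : E n → ℝ} {Φ m : E n × E n → ℂ} {c z : E n} {R : ℝ}
    (hb : Pb f Φ c R r) (hm : Kpe Φ m c R) (hz : z ∈ ball c R) (h : (hr f z).rank = r) :
    KPe f (pt m) z := by
  obtain ⟨V, h1, h2⟩ := (hE n r Φ c R hb.hf).2.2 m hm (dg z) (PK.dg_mem_ball.2 hz)
    (plz_hr hb.plz hz ▸ h)
  refine ⟨V, h1, ?_⟩
  filter_upwards [h2, isOpen_ball.mem_nhds hz] with w a b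
  rw [plz_hr hb.plz b, plz_dbv (kpe_plz hm) b]
  exact a _ (PK.star_mem_ball.2 b)

theorem kpAt_of (hE : St_KPE) (hO : St_ONE) {φ : M.Fam ℝ} (hw : M.Wt 1 φ) (he : e ∈ M.C)
    {Φ m : E n × E n → ℂ} {c : E n} {R : ℝ} (hb : Pb (φ e) Φ c R r) (hm : Kpe Φ m c R)
    (hx : x ∈ e.source ∩ e ⁻¹' ball c R) : KPAt M φ r (fun y => pt m (e y)) x := by
  have a : ∀ y ∈ e.source ∩ e ⁻¹' ball c R, AnAt M (fun y => pt m (e y)) y := fun y hy =>
    ((hO n M e he y hy.1).1 ℝ _).1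
      ((an_pt (plz_hn (kpe_plz hm) hy.2)).congr (lift_ev _ (e.map_source hy.1)))
  refine ⟨a x hx, ?_⟩
  filter_upwards [ball_nhds hx.1 hx.2] with y hy h0
  exact ((hO n M e he y hy.1).2.2.2.2.2 φ hw).2.2.1 _ (a y hy)
    (kpe_congr (kpe_of hE hb hm hy.2 ((x0_iff hO hw he hy.1).1 h0))
      (lift_ev _ (e.map_source hy.1)))

theorem pt_ev {m : E n × E n → ℂ} {μ : E n → ℝ} {c z : E n} {R : ℝ}
    (h : ∀ z ∈ ball c R, m (dg z) = μ z) (hz : z ∈ ball c R) : pt m =ᶠ[𝓝 z] μ := by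
  filter_upwards [isOpen_ball.mem_nhds hz] with w hw
  rw [pt, h w hw, ofReal_re]

end K10

open K10

theorem st_GLB (hK : St_KPX) (hE : St_KPE) (hC : St_COM) (hO : St_ONE) : St_GLB := by
  intro n M _ _ G φ r hS hH
  have := R71.lpc M
  refine ⟨fun ν x h => st_MON M.X ℝ (fun y f => KPAt M φ r f y)
    (fun x f g q h => kpAt_congr h q) (fun x => ?_) x ν h, fun μ ν x hμ hν h0 => ?_⟩
  · obtain ⟨R, Φ, hs, hb⟩ := (st_PBX hK hO n r M G φ hS hH _ (Mf.ch_mem x)).1 _ (Mf.ch_tgt x)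
    have he := Mf.ch_mem x
    refine ⟨(M.ch x).source ∩ M.ch x ⁻¹' ball (M.ch x x) R,
      (M.ch x).isOpen_inter_preimage isOpen_ball, ⟨Mf.mem_ch x, mem_ball_self hb.r0⟩,
      fun y hy f hf => ?_, fun g g' h1 h2 y hy q =>
        an_ball he hs (fun y hy => (h1 y hy).1) (fun y hy => (h2 y hy).1) hy q⟩
    obtain ⟨h1, h2⟩ := kp_tgt hO hS.wt he (hs hy.2) (μ := f) (by rwa [(M.ch x).left_inv hy.1])
    obtain ⟨m, h3, h4⟩ := hK n r _ Φ _ R _ hb _ hy.2 h1 h2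
    refine ⟨_, fun z hz => kpAt_of hE hO hS.wt he hb h3 hz, (ev_chart hy.1).2 ?_⟩
    filter_upwards [h4, (M.ch x).open_target.mem_nhds (hs hy.2)] with w a b
    rw [(M.ch x).right_inv b, pt, a, ofReal_re]
    rfl
  · refine prop_conn (P := fun y => y ∈ X0 M (M.hw φ) r → ComAt M φ μ ν y) (fun x => ?_) h0
    have he := Mf.ch_mem x
    obtain ⟨h1, h2⟩ := st_PBX hK hO n r M G φ hS hH _ he
    obtain ⟨R, Φ, hs, hb⟩ := h1 _ (Mf.ch_tgt x)
    obtain ⟨m, a1, a2⟩ := (h2 _ R Φ hb.r0 hs hb.plz).2 μ fun _ _ => hμ _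
    obtain ⟨m', b1, b2⟩ := (h2 _ R Φ hb.r0 hs hb.plz).2 ν fun _ _ => hν _
    refine ⟨_, ball_nhds (Mf.mem_ch x) (mem_ball_self hb.r0), fun y hy h w hw h0 => ?_⟩
    refine ((hO n M _ he w hw.1).2.2.2.2.2 φ hS.wt).2.2.2 μ ν (hμ w).1 (hν w).1 (come_congr
      ((hC n r _ Φ m m' _ R hb a1 b1 _ hy.2 ?_).2 _ hw.2 ((x0_iff hO hS.wt he hw.1).1 h0))
      (pt_ev a2 hw.2) (pt_ev b2 hw.2))
    filter_upwards [(ev_chart hy.1).1 h, isOpen_ball.mem_nhds hy.2] with z c d q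
    exact come_congr (at_tgt (p := fun e z => Come (φ e) (μ ∘ e.symm) (ν ∘ e.symm) z) he (hs d)
      (c ((x0_tgt hO hS.wt he (hs d)).2 q))) (pt_ev a2 d).symm (pt_ev b2 d).symm

end Pool.Agent.Lib.RA
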